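import Pool.Agent.H800.FS.Mono
import Pool.Graph.R_seed8.Helper131.FS.Weak
import Pool.Graph.R_seed8.Helper131.FS.L_geom
import Pool.Graph.R_seed8.Helper131.FS.L_psd
import Pool.Graph.R_seed8.Helper131.FS.L_plane_props
import Pool.Graph.R_seed8.Helper131.FS.L_trace_formula

namespace Pool.Agent.H800.FS

open MeasureTheory Set Filter Topology
open scoped ContDiff RealInnerProductSpace
open Pool.Agent.Helper131.FS (E)
open Pool.Agent.Helper131.FS.Weak

/-- The algebraic certificate for a calibrating vector field `A p + B e` in scaled variables. -/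
structure Cert (k : ℕ) (A B : ℝ → Poly) : Prop where
  pde : ∀ ε M D : ℝ, 0 < M → 0 < D →
    k * ev (A ε) M D + D * evD (A ε) M D + M * evM (A ε) M D - M * evD (B ε) M D / D
      - evM (B ε) M D = 0
  posX : ∀ ε M D : ℝ, 0 < ε → 0 < M → M ≤ D → 1 + ε * D ^ 2 ≤ M → 0 ≤ -evD (A ε) M D / D
  posY : ∀ ε M D : ℝ, 0 < ε → 0 < M → M ≤ D → 1 + ε * D ^ 2 ≤ M → 0 ≤ evM (B ε) M D
  posQ : ∀ ε M D : ℝ, 0 < ε → 0 < M → M ≤ D → 1 + ε * D ^ 2 ≤ M →
    (evM (A ε) M D - evD (B ε) M D / D) ^ 2 ≤ 4 * (-evD (A ε) M D / D) * evM (B ε) M D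
  flux : ∀ ε D : ℝ, 0 < ε → 0 < D →
    ev (A ε) (1 + ε * D ^ 2) D * (ε * D ^ 2 - 1)
      + ev (B ε) (1 + ε * D ^ 2) D * (1 - 2 * ε * (1 + ε * D ^ 2)) = ε ^ (k - 1) - (D⁻¹) ^ (2 * (k - 1))

/-- unit vector -/
noncomputable def ue (n : ℕ) (y : E n) : E n := (1 / ‖y‖) • y
noncomputable def sg (n : ℕ) (y : E n) : ℝ := 2 * ‖y‖ / (‖y‖ ^ 2 - 1)
noncomputable def ep (n : ℕ) (y : E n) : ℝ := (‖y‖ ^ 2 - 1) / (4 * ‖y‖ ^ 2)
noncomputable def Mf (n : ℕ) (y x : E n) : ℝ := sg n y * (‖y‖ - ⟪ue n y, x⟫)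
noncomputable def Df (n : ℕ) (y x : E n) : ℝ := sg n y * ‖x - y‖

/-- the (scaled) calibrating vector field -/
noncomputable def U (n : ℕ) (A B : ℝ → Poly) (y x : E n) : E n :=
  ev (A (ep n y)) (Mf n y x) (Df n y x) • (sg n y • (x - y))
    + ev (B (ep n y)) (Mf n y x) (Df n y x) • ue n y

section
variable {n : ℕ} {y : E n}

theorem sg_pos (hy : 1 < ‖y‖) : 0 < sg n y := by
  unfold sg
  have : 0 < ‖y‖ ^ 2 - 1 := by nlinarith
  have : 0 < ‖y‖ := by linarith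
  positivity

theorem ep_pos (hy : 1 < ‖y‖) : 0 < ep n y := by
  unfold ep
  have : 0 < ‖y‖ ^ 2 - 1 := by nlinarith
  have : 0 < ‖y‖ := by linarith
  positivity

theorem region (hy : 1 < ‖y‖) (x : E n) (hx : ‖x‖ ≤ 1) :
    0 < Mf n y x ∧ Mf n y x ≤ Df n y x ∧ 1 + ep n y * (Df n y x) ^ 2 ≤ Mf n y x ∧
    (‖x‖ = 1 → Mf n y x = 1 + ep n y * (Df n y x) ^ 2) := by
  obtain ⟨g1, g2, g3, g4⟩ := Pool.Agent.Helper131.FS.geom n y hy x hx
  have hs := sg_pos hy
  have hK : 0 < ‖y‖ ^ 2 - 1 := by nlinarith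
  have hr : 0 < ‖y‖ := by linarith
  have e1 : 1 + ep n y * (Df n y x) ^ 2 = (‖x - y‖ ^ 2 + (‖y‖ ^ 2 - 1)) / (‖y‖ ^ 2 - 1) := by
    unfold ep Df sg; field_simp; ring
  have e2 : Mf n y x = (2 * ‖y‖ * (‖y‖ - ⟪(1/‖y‖) • y, x⟫)) / (‖y‖ ^ 2 - 1) := by
    unfold Mf sg ue; ring
  refine ⟨mul_pos hs g1, mul_le_mul_of_nonneg_left g2 hs.le, ?_, ?_⟩
  · rw [e1, e2]; exact div_le_div_of_nonneg_right g3 hK.le
  · intro h; rw [e1, e2, g4 h]

theorem contDiffAt_Mf (x : E n) : ContDiffAt ℝ ∞ (Mf n y) x := by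
  unfold Mf
  exact contDiffAt_const.mul (contDiffAt_const.sub (contDiffAt_const.inner ℝ contDiffAt_id))

theorem contDiffAt_Df (x : E n) (hxy : x - y ≠ 0) : ContDiffAt ℝ ∞ (Df n y) x := by
  unfold Df
  exact contDiffAt_const.mul ((contDiffAt_id.sub contDiffAt_const).norm ℝ hxy)

theorem contDiffAt_U (A B : ℝ → Poly) (hy : 1 < ‖y‖) (x : E n) (hx : ‖x‖ ≤ 1) :
    ContDiffAt ℝ ∞ (U n A B y) x := by
  obtain ⟨h1, h2, -, -⟩ := region hy x hx
  have hxy : x - y ≠ 0 := by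
    intro h
    have : Df n y x = 0 := by unfold Df; rw [h]; simp
    linarith
  have hd : Df n y x ≠ 0 := by linarith
  have hs : Df n y x + Mf n y x ≠ 0 := by linarith
  have hA : ContDiffAt ℝ ∞ (fun x => ev (A (ep n y)) (Mf n y x) (Df n y x)) x :=
    contDiffAt_ev _ _ _ x (contDiffAt_Mf x) (contDiffAt_Df x hxy) hd hs
  have hB : ContDiffAt ℝ ∞ (fun x => ev (B (ep n y)) (Mf n y x) (Df n y x)) x :=
    contDiffAt_ev _ _ _ x (contDiffAt_Mf x) (contDiffAt_Df x hxy) hd hs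
  have hp : ContDiffAt ℝ ∞ (fun x : E n => sg n y • (x - y)) x := by
    fun_prop
  have he : ContDiffAt ℝ ∞ (fun _ : E n => ue n y) x := contDiffAt_const
  exact (hA.smul hp).add (hB.smul he)

theorem hasDerivAt_norm_line (x v : E n) (hxy : 0 < ‖x - y‖) :
    HasDerivAt (fun τ : ℝ => ‖(x + τ • v) - y‖) (⟪x - y, v⟫ / ‖x - y‖) 0 := by
  have h1 : HasDerivAt (fun τ : ℝ => (x + τ • v) - y) v 0 := by
    have h := ((hasDerivAt_id (0:ℝ)).smul_const v).const_add x |>.sub_const y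
    simpa using h
  have h2 := h1.norm_sq
  have h3 : HasDerivAt (fun τ : ℝ => Real.sqrt (‖(x + τ • v) - y‖^2))
      (2 * ⟪(x + (0:ℝ) • v) - y, v⟫ / (2 * Real.sqrt (‖(x + (0:ℝ) • v) - y‖^2))) 0 := by
    apply HasDerivAt.sqrt h2
    simp only [zero_smul, add_zero]
    positivity
  simp only [zero_smul, add_zero, Real.sqrt_sq (norm_nonneg _)] at h3
  convert h3 using 1
  field_simp

theorem fderiv_U (A B : ℝ → Poly) (hy : 1 < ‖y‖) (x : E n) (hx : ‖x‖ ≤ 1) (v : E n) :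
    fderiv ℝ (U n A B y) x v =
      (sg n y * ev (A (ep n y)) (Mf n y x) (Df n y x)) • v
      + ((sg n y * (evD (A (ep n y)) (Mf n y x) (Df n y x) / Df n y x)) * ⟪sg n y • (x - y), v⟫
          + (sg n y * (-evM (A (ep n y)) (Mf n y x) (Df n y x))) * ⟪ue n y, v⟫) • (sg n y • (x - y))
      + ((sg n y * (evD (B (ep n y)) (Mf n y x) (Df n y x) / Df n y x)) * ⟪sg n y • (x - y), v⟫
          + (sg n y * (-evM (B (ep n y)) (Mf n y x) (Df n y x))) * ⟪ue n y, v⟫) • ue n y := by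
  obtain ⟨h1, h2, -, -⟩ := region hy x hx
  have hs := sg_pos hy
  have hD : 0 < Df n y x := by linarith
  have hd : 0 < ‖x - y‖ := by
    unfold Df at hD
    exact (mul_pos_iff_of_pos_left hs).1 hD
  have hdiff : DifferentiableAt ℝ (U n A B y) x :=
    (contDiffAt_U A B hy x hx).differentiableAt (by simp)
  have hline : HasDerivAt (fun τ : ℝ => x + τ • v) v 0 := by
    have h := ((hasDerivAt_id (0:ℝ)).smul_const v).const_add x
    simpa using h
  have hA : HasDerivAt (fun τ : ℝ => U n A B y (x + τ • v)) (fderiv ℝ (U n A B y) x v) 0 := by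
    have h0 : HasFDerivAt (U n A B y) (fderiv ℝ (U n A B y) x) (x + (0:ℝ) • v) := by
      simpa using hdiff.hasFDerivAt
    exact h0.comp_hasDerivAt (0:ℝ) hline
  have hdl : HasDerivAt (fun τ : ℝ => Df n y (x + τ • v)) (sg n y * (⟪x - y, v⟫ / ‖x - y‖)) 0 :=
    (hasDerivAt_norm_line x v hd).const_mul _
  have hml : HasDerivAt (fun τ : ℝ => Mf n y (x + τ • v)) (sg n y * (-⟪ue n y, v⟫)) 0 := by
    have h := ((hasDerivAt_const (0:ℝ) (ue n y)).inner ℝ hline).const_sub ‖y‖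
    have h' := h.const_mul (sg n y)
    simpa [Mf] using h'
  have hD0 : 0 < Df n y (x + (0:ℝ) • v) := by simpa using hD
  have hM0 : 0 < Mf n y (x + (0:ℝ) • v) := by simpa using h1
  have kA := hasDerivAt_ev (A (ep n y)) (fun τ : ℝ => Mf n y (x + τ • v))
    (fun τ : ℝ => Df n y (x + τ • v)) _ _ hml hdl hD0 hM0
  have kB := hasDerivAt_ev (B (ep n y)) (fun τ : ℝ => Mf n y (x + τ • v))
    (fun τ : ℝ => Df n y (x + τ • v)) _ _ hml hdl hD0 hM0
  have hp : HasDerivAt (fun τ : ℝ => sg n y • ((x + τ • v) - y)) (sg n y • v) 0 :=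
    (hline.sub_const y).const_smul (sg n y)
  have hB := (kA.smul hp).add (kB.smul_const (ue n y))
  have hB' : HasDerivAt (fun τ : ℝ => U n A B y (x + τ • v)) _ 0 := hB
  have huniq := hA.unique hB'
  rw [huniq]
  simp only [zero_smul, add_zero]
  have e3 : ⟪sg n y • (x - y), v⟫ / Df n y x = ⟪x - y, v⟫ / ‖x - y‖ := by
    unfold Df; rw [real_inner_smul_left]; field_simp
  have e4 : ∀ c : ℝ, (sg n y * (c / Df n y x)) * ⟪sg n y • (x - y), v⟫ =
      c * (sg n y * (⟪x - y, v⟫ / ‖x - y‖)) := by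
    intro c; rw [← e3]; ring
  rw [e4, e4]
  simp only [smul_smul]
  congr 1
  congr 1
  · congr 1; ring
  · congr 1; ring
  · congr 1; ring

theorem div_nonneg' {k : ℕ} {A B : ℝ → Poly} (C : Cert k A B) (hy : 1 < ‖y‖)
    (P : E n →L[ℝ] E n) (hP : IsPlaneProj k P) (x : E n) (hx : ‖x‖ ≤ 1) :
    0 ≤ divAlong P (U n A B y) x := by
  have hs := sg_pos hy
  have he := ep_pos hy
  have hr : 0 < ‖y‖ := by linarith
  obtain ⟨g1, g2, g3, -⟩ := region hy x hx
  unfold divAlong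
  rw [Pool.Agent.Helper131.FS.trace_formula n k P hP _ _ _ _ _ _ (sg n y • (x - y)) (ue n y)
    (fun v => fderiv_U A B hy x hx v)]
  obtain ⟨p1, p2, p3, p4⟩ :=
    Pool.Agent.Helper131.FS.plane_props n k P hP (sg n y • (x - y)) (ue n y)
  have hpe : ⟪sg n y • (x - y), ue n y⟫ = -Mf n y x := by
    unfold Mf ue
    rw [real_inner_smul_left, inner_sub_left, real_inner_comm x, inner_smul_right y y,
      real_inner_self_eq_norm_sq]
    have : 1 / ‖y‖ * ‖y‖ ^ 2 = ‖y‖ := by field_simp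
    rw [this]; ring
  have hee : ⟪ue n y, ue n y⟫ = 1 := by
    unfold ue
    rw [inner_smul_right, inner_smul_left, real_inner_self_eq_norm_sq]
    simp only [conj_trivial]
    field_simp
  have hpp : ⟪sg n y • (x - y), sg n y • (x - y)⟫ = (Df n y x) ^ 2 := by
    rw [real_inner_self_eq_norm_sq, norm_smul, Real.norm_of_nonneg hs.le]; rfl
  rw [hpe, hee, hpp] at p4
  rw [hpp] at p1
  rw [hee] at p2
  rw [p3]
  generalize ⟪sg n y • (x - y), P (sg n y • (x - y))⟫ = q at *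
  generalize ⟪sg n y • (x - y), P (ue n y)⟫ = s at *
  generalize ⟪ue n y, P (ue n y)⟫ = t at *
  generalize Mf n y x = M at *
  generalize Df n y x = D at *
  generalize sg n y = σ at *
  generalize ep n y = ε at *
  have hD : 0 < D := by linarith
  have hb := C.pde ε M D g1 hD
  have c1 := C.posX ε M D he g1 g2 g3
  have c2 := C.posY ε M D he g1 g2 g3
  have c3 := C.posQ ε M D he g1 g2 g3
  have hpsd := Pool.Agent.Helper131.FS.psd (-evD (A ε) M D / D) (evM (B ε) M D)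
    (evM (A ε) M D - evD (B ε) M D / D) (D ^ 2 - q) (-M - s) (1 - t) c1 c2 c3 p1 p2 p4
  have key : (k : ℝ) * (σ * ev (A ε) M D) + σ * (evD (A ε) M D / D) * q
      + σ * (-evM (A ε) M D) * s + σ * (evD (B ε) M D / D) * s + σ * (-evM (B ε) M D) * t
      = σ * ((k * ev (A ε) M D + D * evD (A ε) M D + M * evM (A ε) M D - M * evD (B ε) M D / D
      - evM (B ε) M D) + ((-evD (A ε) M D / D) * (D ^ 2 - q) +
        (evM (A ε) M D - evD (B ε) M D / D) * (-M - s) + evM (B ε) M D * (1 - t))) := by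
    field_simp
    ring
  rw [key, hb, zero_add]
  exact mul_nonneg hs.le hpsd

theorem flux {k : ℕ} {A B : ℝ → Poly} (C : Cert k A B) (hy : 1 < ‖y‖) (x : E n) (hx : ‖x‖ = 1) :
    ⟪U n A B y x, x⟫ =
      ‖y‖ * (ep n y) ^ (k - 1) * (1 - ((‖y‖ ^ 2 - 1) / ‖x - y‖ ^ 2) ^ (k - 1)) := by
  have hs := sg_pos hy
  have he := ep_pos hy
  have hr : 0 < ‖y‖ := by linarith
  have hK : 0 < ‖y‖ ^ 2 - 1 := by nlinarith
  obtain ⟨g1, g2, -, g4⟩ := region hy x hx.le
  have hM := g4 hx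
  have hD : 0 < Df n y x := by linarith
  have hd : 0 < ‖x - y‖ := by
    unfold Df at hD
    exact (mul_pos_iff_of_pos_left hs).1 hD
  have hf := C.flux (ep n y) (Df n y x) he hD
  rw [← hM] at hf
  have e1 : ⟪sg n y • (x - y), x⟫ = ‖y‖ * (ep n y * (Df n y x) ^ 2 - 1) := by
    have h1 : ⟪x - y, x⟫ = (‖x - y‖ ^ 2 - (‖y‖ ^ 2 - 1)) / 2 := by
      have h2 := norm_sub_sq_real x y
      rw [inner_sub_left, real_inner_self_eq_norm_sq, real_inner_comm x y]
      rw [hx] at h2 ⊢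
      linarith
    rw [real_inner_smul_left, h1]
    unfold sg ep Df sg
    field_simp
    ring
  have e2 : ⟪ue n y, x⟫ = ‖y‖ * (1 - 2 * ep n y * Mf n y x) := by
    have : ⟪ue n y, x⟫ = ‖y‖ - Mf n y x / sg n y := by
      unfold Mf; field_simp; ring
    rw [this]
    unfold sg ep
    field_simp
    ring
  have e3 : (‖y‖ ^ 2 - 1) / ‖x - y‖ ^ 2 = (ep n y)⁻¹ * ((Df n y x)⁻¹) ^ 2 := by
    unfold ep Df sg; field_simp; ring
  unfold U
  rw [inner_add_left, real_inner_smul_left (sg n y • (x - y)), real_inner_smul_left (ue n y),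
    e1, e2, e3]
  have e4 : ev (A (ep n y)) (Mf n y x) (Df n y x) * (‖y‖ * (ep n y * Df n y x ^ 2 - 1)) +
      ev (B (ep n y)) (Mf n y x) (Df n y x) * (‖y‖ * (1 - 2 * ep n y * Mf n y x)) =
      ‖y‖ * (ev (A (ep n y)) (Mf n y x) (Df n y x) * (ep n y * Df n y x ^ 2 - 1) +
      ev (B (ep n y)) (Mf n y x) (Df n y x) * (1 - 2 * ep n y * Mf n y x)) := by ring
  rw [e4, hf, mul_pow, ← pow_mul, mul_sub, mul_sub, mul_one]
  have e5 : ‖y‖ * ep n y ^ (k - 1) * ((ep n y)⁻¹ ^ (k - 1) * (Df n y x)⁻¹ ^ (2 * (k - 1))) =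
      ‖y‖ * (Df n y x)⁻¹ ^ (2 * (k - 1)) * (ep n y * (ep n y)⁻¹) ^ (k - 1) := by
    rw [mul_pow]; ring
  rw [e5, mul_inv_cancel₀ he.ne', one_pow, mul_one]

theorem integrable_fac (j : ℕ) (σ : Measure (E n)) [IsFiniteMeasure σ] (hσ : ∀ᵐ x ∂σ, ‖x‖ = 1)
    (hy : 1 < ‖y‖) : Integrable (fun x => ((‖y‖^2-1)/‖x - y‖^2)^j) σ := by
  have hmeas : AEStronglyMeasurable (fun x => ((‖y‖^2-1)/‖x - y‖^2)^j) σ := by
    apply Measurable.aestronglyMeasurable
    fun_prop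
  refine Integrable.of_bound hmeas ((((‖y‖^2-1)/(‖y‖-1)^2))^j) ?_
  filter_upwards [hσ] with x hx
  have h1 : ‖y‖ - 1 ≤ ‖x - y‖ := by
    have := norm_sub_norm_le y x
    rw [norm_sub_rev] at this
    linarith
  have h2 : 0 < ‖y‖ - 1 := by linarith
  have h3 : 0 ≤ ‖y‖^2 - 1 := by nlinarith
  rw [Real.norm_of_nonneg (by positivity)]
  have h4 : (‖y‖^2-1)/‖x - y‖^2 ≤ (‖y‖^2-1)/(‖y‖-1)^2 := by
    apply div_le_div_of_nonneg_left h3 (by positivity)
    exact pow_le_pow_left₀ h2.le h1 2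
  exact pow_le_pow_left₀ (by positivity) h4 j

theorem main_ineq {k : ℕ} {A B : ℝ → Poly} (C : Cert k A B) (S : FreeBoundaryMinimal (E n) k)
    (hy : 1 < ‖y‖) :
    ∫ x, ((‖y‖^2-1)/‖x - y‖^2)^(k-1) ∂S.bdry ≤ S.bdry.real univ := by
  have := S.bdry_finite
  have hr : 0 < ‖y‖ := by linarith
  have he := ep_pos hy
  have hfv := S.first_variation (U n A B y) (fun x hx => contDiffAt_U A B hy x hx)
  have h0 : 0 ≤ ∫ q, divAlong q.2 (U n A B y) q.1 ∂S.area := by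
    apply integral_nonneg_of_ae
    filter_upwards [S.planes] with q hq
    exact div_nonneg' C hy q.2 hq.2 q.1 hq.1
  have hcongr : ∫ x, ⟪U n A B y x, x⟫ ∂S.bdry =
      ∫ x, ‖y‖ * (ep n y) ^ (k - 1) * (1 - ((‖y‖^2-1)/‖x - y‖^2)^(k-1)) ∂S.bdry := by
    apply integral_congr_ae
    filter_upwards [S.sphere] with x hx
    exact flux C hy x hx
  have hi := integrable_fac (k - 1) S.bdry S.sphere hy
  rw [hcongr, integral_const_mul, integral_sub (integrable_const 1) hi, integral_const,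
    smul_eq_mul, mul_one] at hfv
  rw [hfv] at h0
  have hc : 0 < ‖y‖ * (ep n y) ^ (k - 1) := by positivity
  have := nonneg_of_mul_nonneg_right h0 hc
  linarith

end

end Pool.Agent.H800.FS
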