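import Pool.Agent.H800.FS.Calib
import Pool.Graph.R_seed8.Helper131.FS.DefsR
import Pool.Graph.R_seed8.Helper131.FS.L_dist_refl
import Pool.Graph.R_seed8.Helper131.FS.L_norm_fderiv_refl

namespace Pool.Agent.H800.FS

open MeasureTheory Set Filter Topology
open scoped ContDiff RealInnerProductSpace
open Pool.Agent.Helper131.FS (E refl)
open Pool.Agent.Helper131.FS.Weak

theorem hausdorff_le_aux (j : ℕ) (n : ℕ) (f : E n → E n) (lam : E n → ℝ) (Γ : Set (E n))
    (hΓ : MeasurableSet Γ)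
    (hm : Measurable lam) (hpos : ∀ x ∈ Γ, 0 < lam x)
    (hf : ∀ x ∈ Γ, ∀ z ∈ Γ, dist (f x) (f z) ^ 2 = lam x * lam z * dist x z ^ 2)
    (q : ℝ) (hq : 1 < q) :
    Measure.hausdorffMeasure (j : ℝ) (f '' Γ) ≤ ENNReal.ofReal (q ^ j) *
      ∫⁻ x in Γ, ENNReal.ofReal (lam x ^ j) ∂(Measure.hausdorffMeasure (j : ℝ)) := by
  have hq0 : 0 < q := by linarith
  obtain ⟨G, hG⟩ : ∃ G : ℤ → Set (E n), G = fun j => Γ ∩ lam ⁻¹' Set.Ico (q ^ j) (q ^ (j + 1)) :=
    ⟨_, rfl⟩
  have hGm : ∀ j, MeasurableSet (G j) := by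
    intro j; rw [hG]; exact hΓ.inter (hm measurableSet_Ico)
  have hGd : Pairwise (Function.onFun Disjoint G) := by
    have key : ∀ i j : ℤ, i < j → Disjoint (G i) (G j) := by
      intro i j hij
      rw [Set.disjoint_left]
      intro x hx hx'
      rw [hG] at hx hx'
      have h1 : lam x < q ^ (i + 1) := hx.2.2
      have h2 : q ^ j ≤ lam x := hx'.2.1
      have h3 : q ^ (i + 1) ≤ q ^ j := zpow_le_zpow_right₀ hq.le (by omega)
      linarith
    intro i j hij
    rcases lt_or_gt_of_ne hij with h | h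
    · exact key i j h
    · exact (key j i h).symm
  have hGu : ⋃ j, G j = Γ := by
    apply Set.Subset.antisymm
    · apply Set.iUnion_subset
      intro j; rw [hG]; exact Set.inter_subset_left
    · intro x hx
      obtain ⟨j, hj⟩ := exists_mem_Ico_zpow (hpos x hx) hq
      rw [Set.mem_iUnion]
      exact ⟨j, by rw [hG]; exact ⟨hx, hj⟩⟩
  have hlip : ∀ i : ℤ, LipschitzOnWith (Real.toNNReal (q ^ (i + 1))) f (G i) := by
    intro i
    apply LipschitzOnWith.of_dist_le_mul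
    intro x hx z hz
    rw [hG] at hx hz
    have hqj : 0 < q ^ (i + 1) := zpow_pos hq0 _
    rw [Real.coe_toNNReal _ hqj.le]
    have h1 : lam x ≤ q ^ (i + 1) := hx.2.2.le
    have h2 : lam z ≤ q ^ (i + 1) := hz.2.2.le
    have h3 := hpos x hx.1
    have h4 := hpos z hz.1
    have h5 : dist (f x) (f z) ^ 2 ≤ (q ^ (i + 1) * dist x z) ^ 2 := by
      rw [hf x hx.1 z hz.1, mul_pow]
      apply mul_le_mul_of_nonneg_right ?_ (sq_nonneg _)
      calc lam x * lam z ≤ q ^ (i + 1) * q ^ (i + 1) := mul_le_mul h1 h2 h4.le hqj.le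
        _ = (q ^ (i + 1)) ^ 2 := (sq _).symm
    exact (abs_le_of_sq_le_sq' h5 (by positivity)).2
  have hj : ∀ i : ℤ, Measure.hausdorffMeasure (j : ℝ) (f '' (G i)) ≤ ENNReal.ofReal (q ^ j) *
      ∫⁻ x in G i, ENNReal.ofReal (lam x ^ j) ∂(Measure.hausdorffMeasure (j : ℝ)) := by
    intro i
    have hqj : 0 < q ^ i := zpow_pos hq0 _
    have hqj1 : 0 < q ^ (i + 1) := zpow_pos hq0 _
    refine ((hlip i).hausdorffMeasure_image_le (Nat.cast_nonneg j)).trans ?_
    have e1 : ((Real.toNNReal (q ^ (i + 1)) : NNReal) : ENNReal) ^ (j : ℝ)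
        = ENNReal.ofReal (q ^ j) * ENNReal.ofReal ((q ^ i) ^ j) := by
      rw [← ENNReal.ofReal_mul (by positivity), ENNReal.rpow_natCast]
      rw [show ((Real.toNNReal (q ^ (i + 1)) : NNReal) : ENNReal) = ENNReal.ofReal (q ^ (i + 1))
        from rfl, ← ENNReal.ofReal_pow hqj1.le]
      congr 1
      rw [zpow_add_one₀ hq0.ne']
      ring
    rw [e1, mul_assoc]
    gcongr
    calc ENNReal.ofReal ((q ^ i) ^ j) * Measure.hausdorffMeasure (j : ℝ) (G i)
        = ∫⁻ x in G i, ENNReal.ofReal ((q ^ i) ^ j) ∂(Measure.hausdorffMeasure (j : ℝ)) := by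
          rw [setLIntegral_const]
      _ ≤ ∫⁻ x in G i, ENNReal.ofReal (lam x ^ j) ∂(Measure.hausdorffMeasure (j : ℝ)) := by
          apply setLIntegral_mono' (hGm i)
          intro x hx
          rw [hG] at hx
          apply ENNReal.ofReal_le_ofReal
          exact pow_le_pow_left₀ hqj.le hx.2.1 j
  calc Measure.hausdorffMeasure (j : ℝ) (f '' Γ)
        = Measure.hausdorffMeasure (j : ℝ) (⋃ j, f '' (G j)) := by
        rw [← Set.image_iUnion, hGu]
    _ ≤ ∑' i, Measure.hausdorffMeasure (j : ℝ) (f '' (G i)) := measure_iUnion_le _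
    _ ≤ ∑' i, ENNReal.ofReal (q ^ j) *
      ∫⁻ x in G i, ENNReal.ofReal (lam x ^ j) ∂(Measure.hausdorffMeasure (j : ℝ)) :=
        ENNReal.tsum_le_tsum hj
    _ = ENNReal.ofReal (q ^ j) *
      ∫⁻ x in Γ, ENNReal.ofReal (lam x ^ j) ∂(Measure.hausdorffMeasure (j : ℝ)) := by
        rw [ENNReal.tsum_mul_left, ← lintegral_iUnion hGm hGd, hGu]

theorem hausdorff_le (j : ℕ) (n : ℕ) (f : E n → E n) (lam : E n → ℝ) (Γ : Set (E n))
    (hΓ : MeasurableSet Γ)
    (hm : Measurable lam) (hpos : ∀ x ∈ Γ, 0 < lam x)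
    (hf : ∀ x ∈ Γ, ∀ z ∈ Γ, dist (f x) (f z) ^ 2 = lam x * lam z * dist x z ^ 2) :
    Measure.hausdorffMeasure (j : ℝ) (f '' Γ) ≤
      ∫⁻ x in Γ, ENNReal.ofReal (lam x ^ j) ∂(Measure.hausdorffMeasure (j : ℝ)) := by
  by_cases hR : ∫⁻ x in Γ, ENNReal.ofReal (lam x ^ j) ∂(Measure.hausdorffMeasure (j : ℝ)) = ⊤
  · rw [hR]; exact le_top
  have ht : Tendsto (fun q : ℝ => ENNReal.ofReal (q ^ j) *
      ∫⁻ x in Γ, ENNReal.ofReal (lam x ^ j) ∂(Measure.hausdorffMeasure (j : ℝ))) (𝓝[>] 1)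
      (𝓝 (ENNReal.ofReal ((1 : ℝ) ^ j) *
      ∫⁻ x in Γ, ENNReal.ofReal (lam x ^ j) ∂(Measure.hausdorffMeasure (j : ℝ)))) := by
    apply ENNReal.Tendsto.mul_const ?_ (Or.inr hR)
    apply Tendsto.mono_left ?_ nhdsWithin_le_nhds
    exact (ENNReal.continuous_ofReal.comp (continuous_pow j)).tendsto 1
  rw [one_pow, ENNReal.ofReal_one, one_mul] at ht
  apply ge_of_tendsto ht
  filter_upwards [self_mem_nhdsWithin] with q hq
  exact hausdorff_le_aux j n f lam Γ hΓ hm hpos hf q hq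

theorem hausdorff_final (j : ℕ) (n : ℕ) (A : E n ≃ₗᵢ[ℝ] E n) (y : E n) (hy : 1 < ‖y‖) (Γ : Set (E n))
    (hΓ : MeasurableSet Γ) (hs : ∀ x ∈ Γ, ‖x‖ = 1)
    (hfin : Measure.hausdorffMeasure (j : ℝ) Γ ≠ ⊤)
    (hI : ∫ x, ((‖y‖^2-1)/‖x - y‖^2)^j ∂((Measure.hausdorffMeasure (j : ℝ) : Measure (E n)).restrict Γ)
      ≤ ((Measure.hausdorffMeasure (j : ℝ) : Measure (E n)).restrict Γ).real univ) :
    Measure.hausdorffMeasure (j : ℝ) ((fun x => A (refl n y x)) '' Γ) ≤
      Measure.hausdorffMeasure (j : ℝ) Γ := by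
  set μ : Measure (E n) := (Measure.hausdorffMeasure (j : ℝ) : Measure (E n)).restrict Γ with hμ
  have hne : ∀ x ∈ Γ, x ≠ y := by
    rintro x hx rfl
    rw [hs x hx] at hy
    exact lt_irrefl _ hy
  have hnum : 0 < ‖y‖ ^ 2 - 1 := by nlinarith
  have hm : Measurable (fun x : E n => (‖y‖^2-1)/‖x - y‖^2) := by fun_prop
  have h1 := hausdorff_le j n (fun x => A (refl n y x)) (fun x => (‖y‖^2-1)/‖x - y‖^2) Γ hΓ hm
    (fun x hx => div_pos hnum (by
      have : 0 < ‖x - y‖ := norm_pos_iff.2 (sub_ne_zero.2 (hne x hx))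
      positivity))
    (fun x hx z hz => Pool.Agent.Helper131.FS.dist_refl n A y x z hy (hne x hx) (hne z hz))
  refine h1.trans ?_
  have hfinμ : IsFiniteMeasure μ := ⟨by
    rw [hμ, Measure.restrict_apply_univ]
    exact lt_top_iff_ne_top.2 hfin⟩
  have hint : Integrable (fun x : E n => ((‖y‖^2-1)/‖x - y‖^2)^j) μ := by
    apply integrable_fac j μ ?_ hy
    rw [hμ, ae_restrict_iff' hΓ]
    exact Eventually.of_forall hs
  rw [← hμ, ← ofReal_integral_eq_lintegral_ofReal hint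
    (Eventually.of_forall fun x => by positivity)]
  refine (ENNReal.ofReal_le_ofReal hI).trans (le_of_eq ?_)
  rw [measureReal_def, ENNReal.ofReal_toReal (measure_ne_top _ _), hμ, Measure.restrict_apply_univ]

theorem final {k : ℕ} (hk : 1 ≤ k) {P Q : ℝ → Poly} (C : Cert k P Q) (n : ℕ)
    (S : FreeBoundaryMinimal (EuclideanSpace ℝ (Fin n)) k)
    (f : EuclideanSpace ℝ (Fin n) → EuclideanSpace ℝ (Fin n)) (hf : IsConformalDiffeo f) :
    S.imageBoundaryVolume f ≤ S.boundaryVolume ∧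
    ∀ Γ : Set (EuclideanSpace ℝ (Fin n)), S.BoundaryIs Γ →
      Measure.hausdorffMeasure ((k : ℝ) - 1) (f '' Γ) ≤ Measure.hausdorffMeasure ((k : ℝ) - 1) Γ := by
  have := S.bdry_finite
  have hkc : ((k - 1 : ℕ) : ℝ) = (k : ℝ) - 1 := by push_cast [Nat.cast_sub hk]; ring
  unfold FreeBoundaryMinimal.imageBoundaryVolume FreeBoundaryMinimal.boundaryVolume
    FreeBoundaryMinimal.BoundaryIs
  obtain ⟨A, hA | ⟨y, hy, hA⟩⟩ := hf
  · obtain rfl : f = fun x => A x := funext hA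
    refine ⟨?_, ?_⟩
    · have h1 : ∫ x, ‖fderiv ℝ (fun x => A x) x‖ ^ (k - 1) ∂S.bdry ≤ ∫ _x, (1 : ℝ) ∂S.bdry := by
        apply integral_mono_of_nonneg
        · exact Filter.Eventually.of_forall (fun x => by positivity)
        · exact integrable_const _
        · refine Filter.Eventually.of_forall (fun x => ?_)
          have e : fderiv ℝ (fun x => A x) x = (A.toContinuousLinearEquiv : E n →L[ℝ] E n) :=
            (A.toContinuousLinearEquiv : E n →L[ℝ] E n).hasFDerivAt.fderiv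
          have h2 : ‖fderiv ℝ (fun x => A x) x‖ ≤ 1 := by
            rw [e]
            refine ContinuousLinearMap.opNorm_le_bound _ zero_le_one (fun v => ?_)
            simp
          show ‖fderiv ℝ (fun x => A x) x‖ ^ (k - 1) ≤ 1
          exact pow_le_one₀ (norm_nonneg _) h2
      simpa [Measure.real] using h1
    · intro Γ _
      exact (A.isometry.hausdorffMeasure_image (Or.inl (by
        rw [← hkc]; exact Nat.cast_nonneg _)) Γ).le
  · obtain rfl : f = fun x => A (refl n y x) := funext hA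
    have hI := main_ineq C S hy
    refine ⟨?_, ?_⟩
    · refine le_trans ?_ hI
      apply integral_mono_of_nonneg
      · exact Filter.Eventually.of_forall (fun x => by positivity)
      · exact integrable_fac (k - 1) S.bdry S.sphere hy
      · filter_upwards [S.sphere] with x hx
        have hxy : x ≠ y := by
          rintro rfl
          linarith
        exact pow_le_pow_left₀ (norm_nonneg _)
          (Pool.Agent.Helper131.FS.norm_fderiv_refl n A y x hy hxy) (k - 1)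
    · rintro Γ ⟨hΓ, hs, hσ⟩
      rw [← hkc] at hσ ⊢
      have hfin : Measure.hausdorffMeasure ((k - 1 : ℕ) : ℝ) Γ ≠ ⊤ := by
        have h1 : S.bdry univ ≠ ⊤ := measure_ne_top _ _
        rw [hσ, Measure.restrict_apply_univ] at h1
        exact h1
      rw [hσ] at hI
      exact hausdorff_final (k - 1) n A y hy Γ hΓ hs hfin hI

end Pool.Agent.H800.FS
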