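import Pool.Agent.H800.FS.Calib
set_option maxRecDepth 100000
set_option linter.unusedVariables false
namespace Pool.Agent.H800.FS.K4
open Pool.Agent.H800.FS

noncomputable def nX (s M D : ℝ) : ℝ := -204*D^4 - 33*D^6 + 8*D^8 - 1260*M*D^2 + 32*M*D^4 + 48*M*D^6 + 3150*M^2*D^2 + 156*M^2*D^4 + 2040*M^3 - 2400*M^3*D^2 - 4440*M^4 + 510*M^4*D^2 + 2760*M^5 - 360*M^6 - 84*s*D^4 - 32*s*D^6 - 824*s*M*D^2 - 78*s*M*D^4 + 16*s*M*D^6 + 1152*s*M^2*D^2 + 1360*s*M^3 - 312*s*M^3*D^2 - 1600*s*M^4 + 240*s*M^5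

noncomputable def nX_0 (s M : ℝ) : ℝ := 780*M^3 - 1494*M^4 + 392*M^5 + 273*M^6 + 48*M^7 + 8*M^8 + 536*s*M^3 - 532*s*M^4 - 150*s*M^5 - 32*s*M^6 + 16*s*M^7

theorem nX_0_nonneg (s v : ℝ) (hs : 0 ≤ s) (hv : 0 ≤ v) : 0 ≤ nX_0 s (1+s+v) := by
  have h : nX_0 s (1+s+v) = 7 + 362*v + 2623*v^2 + 6312*v^3 + 6801*v^4 + 3486*v^5 + 833*v^6 + 112*v^7 + 8*v^8 + 200*s + 3896*s*v + 15708*s*v^2 + 24032*s*v^3 + 16228*s*v^4 + 4992*s*v^5 + 864*s*v^6 + 80*s*v^7 + 1273*s^2 + 12480*s^2*v + 31290*s^2*v^2 + 30052*s^2*v^3 + 12465*s^2*v^4 + 2832*s^2*v^5 + 336*s^2*v^6 + 3084*s^3 + 17688*s^3*v + 27648*s^3*v^2 + 16600*s^3*v^3 + 5120*s^3*v^4 + 784*s^3*v^5 + 3629*s^4 + 12622*s^4*v + 12435*s^4*v^2 + 5520*s^4*v^3 + 1120*s^4*v^4 + 2284*s^5 + 4968*s^5*v + 3552*s^5*v^2 + 1008*s^5*v^3 + 827*s^6 + 1264*s^6*v + 560*s^6*v^2 + 192*s^7 + 176*s^7*v + 24*s^8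 := by
    unfold nX_0; ring
  rw [h]; positivity

noncomputable def nX_1 (s M : ℝ) : ℝ := -2520*M^2 + 5484*M^3 - 4672*M^4 + 1446*M^5 + 288*M^6 + 64*M^7 - 1648*s*M^2 + 1968*s*M^3 - 936*s*M^4 - 192*s*M^5 + 96*s*M^6

theorem nX_1_nonneg (s v : ℝ) (hs : 0 ≤ s) (hv : 0 ≤ v) : 0 ≤ nX_1 s (1+s+v) := by
  have h : nX_1 s (1+s+v) = 90 + 2130*v + 6024*v^2 + 9256*v^3 + 9118*v^4 + 4518*v^5 + 736*v^6 + 64*v^7 + 1418*s + 10528*s*v + 25928*s*v^2 + 34696*s*v^3 + 22134*s*v^4 + 4800*s*v^5 + 544*s*v^6 + 4504*s^2 + 24088*s^2*v + 49380*s^2*v^2 + 43356*s^2*v^3 + 12960*s^2*v^4 + 1920*s^2*v^5 + 7416*s^3 + 31144*s^3*v + 42444*s^3*v^2 + 18560*s^3*v^3 + 3680*s^3*v^4 + 7342*s^4 + 20766*s^4*v + 14880*s^4*v^2 + 4160*s^4*v^3 + 4062*s^5 + 6336*s^5*v + 2784*s^5*v^2 + 1120*s^6 + 1024*s^6*v + 160*s^7 := by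
    unfold nX_1; ring
  rw [h]; positivity

noncomputable def nX_2 (s M : ℝ) : ℝ := -1260*M + 1926*M^2 - 2208*M^3 + 951*M^4 + 720*M^5 + 224*M^6 - 824*s*M + 648*s*M^2 - 780*s*M^3 - 480*s*M^4 + 240*s*M^5

theorem nX_2_nonneg (s v : ℝ) (hs : 0 ≤ s) (hv : 0 ≤ v) : 0 ≤ nX_2 s (1+s+v) := by
  have h : nX_2 s (1+s+v) = 353 + 4716*v + 11568*v^2 + 13276*v^3 + 7911*v^4 + 2064*v^5 + 224*v^6 + 3520*s + 20548*s*v + 37656*s*v^2 + 31344*s*v^3 + 11040*s*v^4 + 1584*s*v^5 + 8980*s^2 + 35484*s^2*v + 46566*s^2*v^2 + 23520*s^2*v^3 + 4560*s^2*v^4 + 11104*s^3 + 30744*s^3*v + 24960*s^3*v^2 + 6880*s^3*v^3 + 7611*s^4 + 13200*s^4*v + 5760*s^4*v^2 + 2784*s^5 + 2544*s^5*v + 464*s^6 := by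
    unfold nX_2; ring
  rw [h]; positivity

noncomputable def nX_3 (s M : ℝ) : ℝ := -816*M + 128*M^2 - 36*M^3 + 960*M^4 + 448*M^5 - 336*s*M - 312*s*M^2 - 640*s*M^3 + 320*s*M^4

theorem nX_3_nonneg (s v : ℝ) (hs : 0 ≤ s) (hv : 0 ≤ v) : 0 ≤ nX_3 s (1+s+v) := by
  have h : nX_3 s (1+s+v) = 684 + 5412*v + 10260*v^2 + 8284*v^3 + 3200*v^4 + 448*v^5 + 4444*s + 18920*s*v + 24540*s*v^2 + 13440*s*v^3 + 2560*s*v^4 + 8660*s^2 + 24228*s^2*v + 21120*s^2*v^2 + 5760*s^2*v^3 + 7972*s^3 + 14720*s^3*v + 6400*s^3*v^2 + 3840*s^4 + 3520*s^4*v + 768*s^5 := by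
    unfold nX_3; ring
  rw [h]; positivity

noncomputable def nX_4 (s M : ℝ) : ℝ := -204 + 32*M - 339*M^2 + 720*M^3 + 560*M^4 - 84*s - 78*s*M - 480*s*M^2 + 240*s*M^3

theorem nX_4_nonneg (s v : ℝ) (hs : 0 ≤ s) (hv : 0 ≤ v) : 0 ≤ nX_4 s (1+s+v) := by
  have h : nX_4 s (1+s+v) = 769 + 3754*v + 5181*v^2 + 2960*v^3 + 560*v^4 + 3352*s + 10044*s*v + 9120*s*v^2 + 2480*s*v^3 + 4863*s^2 + 9360*s^2*v + 4080*s^2*v^2 + 3200*s^3 + 2960*s^3*v + 800*s^4 := by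
    unfold nX_4; ring
  rw [h]; positivity

noncomputable def nX_5 (s M : ℝ) : ℝ := -198*M + 288*M^2 + 448*M^3 - 192*s*M + 96*s*M^2

theorem nX_5_nonneg (s v : ℝ) (hs : 0 ≤ s) (hv : 0 ≤ v) : 0 ≤ nX_5 s (1+s+v) := by
  have h : nX_5 s (1+s+v) = 538 + 1722*v + 1632*v^2 + 448*v^3 + 1626*s + 3264*s*v + 1440*s*v^2 + 1632*s^2 + 1536*s^2*v + 544*s^3 := by
    unfold nX_5; ring
  rw [h]; positivity

noncomputable def nX_6 (s M : ℝ) : ℝ := -33 + 48*M + 224*M^2 - 32*s + 16*s*M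

theorem nX_6_nonneg (s v : ℝ) (hs : 0 ≤ s) (hv : 0 ≤ v) : 0 ≤ nX_6 s (1+s+v) := by
  have h : nX_6 s (1+s+v) = 239 + 496*v + 224*v^2 + 480*s + 464*s*v + 240*s^2 := by
    unfold nX_6; ring
  rw [h]; positivity

noncomputable def nX_7 (s M : ℝ) : ℝ := 64*M

theorem nX_7_nonneg (s v : ℝ) (hs : 0 ≤ s) (hv : 0 ≤ v) : 0 ≤ nX_7 s (1+s+v) := by
  have h : nX_7 s (1+s+v) = 64 + 64*v + 64*s := by
    unfold nX_7; ring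
  rw [h]; positivity

noncomputable def nX_8 (s M : ℝ) : ℝ := 8

theorem nX_8_nonneg (s v : ℝ) (hs : 0 ≤ s) (hv : 0 ≤ v) : 0 ≤ nX_8 s (1+s+v) := by
  have h : nX_8 s (1+s+v) = 8 := by
    unfold nX_8; ring
  rw [h]; positivity

theorem nX_split (s M T : ℝ) : nX s M (M+T) = nX_0 s M * T^0 + nX_1 s M * T^1 + nX_2 s M * T^2 + nX_3 s M * T^3 + nX_4 s M * T^4 + nX_5 s M * T^5 + nX_6 s M * T^6 + nX_7 s M * T^7 + nX_8 s M * T^8 := by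
  unfold nX nX_0 nX_1 nX_2 nX_3 nX_4 nX_5 nX_6 nX_7 nX_8; ring

theorem nX_nonneg (s M D : ℝ) (hs : 0 ≤ s) (hM : 1 + s ≤ M) (hD : M ≤ D) : 0 ≤ nX s M D := by
  obtain ⟨T, rfl⟩ : ∃ T, D = M + T := ⟨D - M, by ring⟩
  obtain ⟨v, rfl⟩ : ∃ v, M = 1 + s + v := ⟨M - (1+s), by ring⟩
  have hv : 0 ≤ v := by linarith
  have hT : 0 ≤ T := by linarith
  rw [nX_split]
  have h0 := nX_0_nonneg s v hs hv
  have h1 := nX_1_nonneg s v hs hv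
  have h2 := nX_2_nonneg s v hs hv
  have h3 := nX_3_nonneg s v hs hv
  have h4 := nX_4_nonneg s v hs hv
  have h5 := nX_5_nonneg s v hs hv
  have h6 := nX_6_nonneg s v hs hv
  have h7 := nX_7_nonneg s v hs hv
  have h8 := nX_8_nonneg s v hs hv
  positivity

noncomputable def nY (s M D : ℝ) : ℝ := 102*D^2 + 11*D^4 + 170*M - 111*M*D^2 - 444*M^2 + 27*M^2*D^2 + 276*M^3 - 30*M^4 + 28*s*D^2 + 102*s*M - 9*s*M*D^2 - 120*s*M^2 + 12*s*M^3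

noncomputable def nY_0 (s M : ℝ) : ℝ := 170*M - 342*M^2 + 165*M^3 + 8*M^4 + 102*s*M - 92*s*M^2 + 3*s*M^3

theorem nY_0_nonneg (s v : ℝ) (hs : 0 ≤ s) (hv : 0 ≤ v) : 0 ≤ nY_0 s (1+s+v) := by
  have h : nY_0 s (1+s+v) = 1 + 13*v + 201*v^2 + 197*v^3 + 8*v^4 + 26*s + 329*s*v + 508*s*v^2 + 35*s*v^3 + 128*s^2 + 425*s^2*v + 57*s^2*v^2 + 114*s^3 + 41*s^3*v + 11*s^4 := by
    unfold nY_0; ring
  rw [h]; positivity

noncomputable def nY_1 (s M : ℝ) : ℝ := 204*M - 222*M^2 + 98*M^3 + 56*s*M - 18*s*M^2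

theorem nY_1_nonneg (s v : ℝ) (hs : 0 ≤ s) (hv : 0 ≤ v) : 0 ≤ nY_1 s (1+s+v) := by
  have h : nY_1 s (1+s+v) = 80 + 54*v + 72*v^2 + 98*v^3 + 92*s + 164*s*v + 276*s*v^2 + 92*s^2 + 258*s^2*v + 80*s^3 := by
    unfold nY_1; ring
  rw [h]; positivity

noncomputable def nY_2 (s M : ℝ) : ℝ := 102 - 111*M + 93*M^2 + 28*s - 9*s*M

theorem nY_2_nonneg (s v : ℝ) (hs : 0 ≤ s) (hv : 0 ≤ v) : 0 ≤ nY_2 s (1+s+v) := by
  have h : nY_2 s (1+s+v) = 84 + 75*v + 93*v^2 + 94*s + 177*s*v + 84*s^2 := by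
    unfold nY_2; ring
  rw [h]; positivity

noncomputable def nY_3 (s M : ℝ) : ℝ := 44*M

theorem nY_3_nonneg (s v : ℝ) (hs : 0 ≤ s) (hv : 0 ≤ v) : 0 ≤ nY_3 s (1+s+v) := by
  have h : nY_3 s (1+s+v) = 44 + 44*v + 44*s := by
    unfold nY_3; ring
  rw [h]; positivity

noncomputable def nY_4 (s M : ℝ) : ℝ := 11

theorem nY_4_nonneg (s v : ℝ) (hs : 0 ≤ s) (hv : 0 ≤ v) : 0 ≤ nY_4 s (1+s+v) := by
  have h : nY_4 s (1+s+v) = 11 := by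
    unfold nY_4; ring
  rw [h]; positivity

theorem nY_split (s M T : ℝ) : nY s M (M+T) = nY_0 s M * T^0 + nY_1 s M * T^1 + nY_2 s M * T^2 + nY_3 s M * T^3 + nY_4 s M * T^4 := by
  unfold nY nY_0 nY_1 nY_2 nY_3 nY_4; ring

theorem nY_nonneg (s M D : ℝ) (hs : 0 ≤ s) (hM : 1 + s ≤ M) (hD : M ≤ D) : 0 ≤ nY s M D := by
  obtain ⟨T, rfl⟩ : ∃ T, D = M + T := ⟨D - M, by ring⟩
  obtain ⟨v, rfl⟩ : ∃ v, M = 1 + s + v := ⟨M - (1+s), by ring⟩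
  have hv : 0 ≤ v := by linarith
  have hT : 0 ≤ T := by linarith
  rw [nY_split]
  have h0 := nY_0_nonneg s v hs hv
  have h1 := nY_1_nonneg s v hs hv
  have h2 := nY_2_nonneg s v hs hv
  have h3 := nY_3_nonneg s v hs hv
  have h4 := nY_4_nonneg s v hs hv
  positivity

noncomputable def nZ (s M D : ℝ) : ℝ := 16*D^6 - 95*D^4 - 586*D^2 + 105*M*D^4 + 1446*M*D^2 - 1164*M^2*D^2 + 1360*M^2 + 276*M^3*D^2 - 2960*M^3 + 1840*M^4 - 240*M^5 - 35*s*D^4 - 310*s*D^2 + 456*s*M*D^2 - 144*s*M^2*D^2 + 816*s*M^2 - 960*s*M^3 + 144*s*M^4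

noncomputable def nQ (s M D : ℝ) : ℝ := -343396*D^4 - 194572*D^6 - 12713*D^8 + 4852*D^10 + 96*D^12 + 1041912*M*D^4 + 423552*M*D^6 + 14762*M*D^8 - 4800*M*D^10 + 737120*M^2*D^2 - 968020*M^2*D^4 - 311084*M^2*D^6 - 5997*M^2*D^8 + 864*M^2*D^10 - 2190160*M^3*D^2 + 241672*M^3*D^4 + 98512*M^3*D^6 + 5184*M^3*D^8 - 462400*M^4 + 2548160*M^4*D^2 + 19384*M^4*D^4 - 20600*M^4*D^6 - 960*M^4*D^8 + 1408960*M^5 - 1688400*M^5*D^2 + 14712*M^5*D^4 + 1920*M^5*D^6 - 1752000*M^6 + 826320*M^6*D^2 - 5256*M^6*D^4 + 1252480*M^7 - 265440*M^7*D^2 - 587200*M^8 + 32400*M^8*D^2 + 154560*M^9 - 14400*M^10 - 363320*s*D^4 - 157040*s*D^6 - 17178*s*D^8 + 608*s*D^10 + 813288*s*M*D^4 + 197880*s*M*D^6 + 19890*s*M*D^8 + 416*s*M*D^10 + 725152*s*M^2*D^2 - 517808*s*M^2*D^4 - 35008*s*M^2*D^6 - 11520*s*M^2*D^8 - 1640368*s*M^3*D^2 + 122328*s*M^3*D^4 - 35856*s*M^3*D^6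 + 2112*s*M^3*D^8 - 462400*s*M^4 + 1529888*s*M^4*D^2 - 42496*s*M^4*D^4 + 19200*s*M^4*D^6 + 1147840*s*M^5 - 920880*s*M^5*D^2 + 7800*s*M^5*D^4 - 1920*s*M^5*D^6 - 1216320*s*M^6 + 352224*s*M^6*D^2 + 736320*s*M^7 - 47808*s*M^7*D^2 - 228480*s*M^8 + 23040*s*M^9 - 96100*s^2*D^4 - 31108*s^2*D^6 - 4809*s^2*D^8 + 156160*s^2*M*D^4 + 13152*s^2*M*D^6 + 2944*s^2*M*D^8 + 169728*s^2*M^2*D^2 - 72912*s^2*M^2*D^4 + 14616*s^2*M^2*D^6 - 576*s^2*M^2*D^8 - 321536*s^2*M^3*D^2 + 21120*s^2*M^3*D^4 - 9216*s^2*M^3*D^6 - 110976*s^2*M^4 + 251840*s^2*M^4*D^2 - 3168*s^2*M^4*D^4 + 768*s^2*M^4*D^6 + 261120*s^2*M^5 - 118272*s^2*M^5*D^2 - 225408*s^2*M^6 + 17856*s^2*M^6*D^2 + 84480*s^2*M^7 - 9216*s^2*M^8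

noncomputable def nQ_0 (s M : ℝ) : ℝ := -68676*M^4 + 260712*M^5 - 366432*M^6 + 229304*M^7 - 65293*M^8 + 17106*M^9 - 9001*M^10 + 2304*M^11 - 100568*s*M^4 + 320760*s*M^5 - 361280*s*M^6 + 135648*s*M^7 + 29062*s*M^8 - 32934*s*M^9 + 8288*s*M^10 + 608*s*M^11 - 37348*s^2*M^4 + 95744*s^2*M^5 - 77588*s^2*M^6 + 480*s^2*M^7 + 15279*s^2*M^8 - 6272*s^2*M^9 + 192*s^2*M^10

theorem nQ_0_nonneg (s v : ℝ) (hs : 0 ≤ s) (hv : 0 ≤ v) : 0 ≤ nQ_0 s (1+s+v) := by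
  have h : nQ_0 s (1+s+v) = 24 + 2336*v + 23255*v^2 + 109952*v^3 + 219000*v^4 + 172648*v^5 + 21634*v^6 + 2976*v^7 + 63776*v^8 + 53816*v^9 + 16343*v^10 + 2304*v^11 + 1920*s + 55552*s*v + 397968*s*v^2 + 1159304*s*v^3 + 1520728*s*v^4 + 978752*s*v^5 + 677744*s*v^6 + 887928*s*v^7 + 690280*s*v^8 + 246816*s*v^9 + 40320*s*v^10 + 608*s*v^11 + 22784*s^2 + 400944*s^2*v + 1954184*s^2*v^2 + 3981336*s^2*v^3 + 4183180*s^2*v^4 + 3758000*s^2*v^5 + 4296824*s^2*v^6 + 3504824*s^2*v^7 + 1453380*s^2*v^8 + 272128*s^2*v^9 + 6880*s^2*v^10 + 112928*s^3 + 1306456*s^3*v + 4546120*s^3*v^2 + 7377880*s^3*v^3 + 8728000*s^3*v^4 + 10705912*s^3*v^5 + 9726472*s^3*v^6 + 4702824*s^3*v^7 + 1014912*s^3*v^8 + 35360*s^3*v^9 + 292576*s^4 + 2367904*s^4*v + 6497570*s^4*v^2 + 10782720*s^4*v^3 + 15690360*s^4*v^4 + 16632392*s^4*v^5 + 9525642*s^4*v^6 + 2400768*s^4*v^7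 + 108960*s^4*v^8 + 455040*s^5 + 2830264*s^5*v + 7456496*s^5*v^2 + 14132776*s^5*v^3 + 18394936*s^5*v^4 + 12803448*s^5*v^5 + 3843840*s^5*v^6 + 223680*s^5*v^7 + 484512*s^6 + 2732464*s^6*v + 7723688*s^6*v^2 + 13251560*s^6*v^3 + 11661636*s^6*v^4 + 4290048*s^6*v^5 + 321216*s^6*v^6 + 413920*s^7 + 2356584*s^7*v + 6022744*s^7*v^2 + 7143960*s^7*v^3 + 3356928*s^7*v^4 + 329280*s^7*v^5 + 308552*s^8 + 1571552*s^8*v + 2826519*s^8*v^2 + 1811712*s^8*v^3 + 240960*s^8*v^4 + 179712*s^9 + 653672*s^9*v + 643968*s^9*v^2 + 123360*s^9*v^3 + 67200*s^10 + 135936*s^10*v + 42080*s^10*v^2 + 12928*s^11 + 8608*s^11*v + 800*s^12 := by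
    unfold nQ_0; ring
  rw [h]; positivity

noncomputable def nQ_1 (s M : ℝ) : ℝ := 100656*M^3 - 212672*M^4 + 56808*M^5 + 131200*M^6 - 238032*M^7 + 237136*M^8 - 79280*M^9 + 4992*M^10 + 2112*M^11 - 2976*s*M^3 - 27584*s*M^4 + 46304*s*M^5 - 165168*s*M^6 + 186992*s*M^7 - 120432*s*M^8 + 29120*s*M^9 + 9536*s*M^10 - 44944*s^2*M^3 - 18432*s^2*M^4 + 25384*s^2*M^5 - 73152*s^2*M^6 + 72264*s^2*M^7 - 31744*s^2*M^8

theorem nQ_1_nonneg (s v : ℝ) (hs : 0 ≤ s) (hv : 0 ≤ v) : 0 ≤ nQ_1 s (1+s+v) := by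
  have h : nQ_1 s (1+s+v) = 2920 + 113016*v + 689872*v^2 + 1678544*v^3 + 2063768*v^4 + 1369400*v^5 + 469328*v^6 + 100976*v^7 + 96736*v^8 + 86800*v^9 + 28224*v^10 + 2112*v^11 + 68808*s + 1203920*s*v + 4878896*s*v^2 + 8692368*s*v^3 + 8359576*s*v^4 + 5126096*s*v^5 + 2927152*s*v^6 + 2190064*s*v^7 + 1351968*s*v^8 + 406720*s*v^9 + 32768*s*v^10 + 443424*s^2 + 4453504*s^2*v + 13234344*s^2*v^2 + 19168008*s^2*v^3 + 17908928*s^2*v^4 + 14768768*s^2*v^5 + 12165704*s^2*v^6 + 7509256*s^2*v^7 + 2358656*s^2*v^8 + 211520*s^2*v^9 + 1253152*s^3 + 8646656*s^3*v + 21040568*s^3*v^2 + 29761312*s^3*v^3 + 33470720*s^3*v^4 + 32420096*s^3*v^5 + 22000888*s^3*v^6 + 7614208*s^3*v^7 + 777600*s^3*v^8 + 2040912*s^4 + 11168416*s^4*v + 26051408*s^4*v^2 + 41204080*s^4*v^3 + 49495640*s^4*v^4 + 39084360*s^4*v^5 + 15494528*s^4*v^6 + 1841280*s^4*v^7 + 2305680*s^5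 + 11640080*s^5*v + 28688816*s^5*v^2 + 45860656*s^5*v^3 + 44531480*s^5*v^4 + 21019264*s^5*v^5 + 2978304*s^5*v^6 + 2097824*s^6 + 10660512*s^6*v + 25606264*s^6*v^2 + 32895128*s^6*v^3 + 19389440*s^6*v^4 + 3378816*s^6*v^5 + 1647648*s^7 + 7950304*s^7*v + 15290856*s^7*v^2 + 12065536*s^7*v^3 + 2699520*s^7*v^4 + 1056776*s^8 + 4075528*s^8*v + 4862528*s^8*v^2 + 1492800*s^8*v^3 + 475880*s^9 + 1148608*s^9*v + 545280*s^9*v^2 + 120960*s^10 + 118592*s^10*v + 11648*s^11 := by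
    unfold nQ_1; ring
  rw [h]; positivity

noncomputable def nQ_2 (s M : ℝ) : ℝ := -1323256*M^2 + 4061312*M^3 - 6178540*M^4 + 6114912*M^5 - 4079600*M^6 + 1713848*M^7 - 257712*M^8 - 42048*M^9 + 18336*M^10 - 1454768*s*M^2 + 3239360*s*M^3 - 3932560*s*M^4 + 2781288*s*M^5 - 908856*s*M^6 + 18072*s*M^7 - 7200*s*M^8 + 49056*s*M^9 - 406872*s^2*M^2 + 615424*s^2*M^3 - 652252*s^2*M^4 + 205728*s^2*M^5 + 83436*s^2*M^6 - 55808*s^2*M^7 - 4608*s^2*M^8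

theorem nQ_2_nonneg (s v : ℝ) (hs : 0 ≤ s) (hv : 0 ≤ v) : 0 ≤ nQ_2 s (1+s+v) := by
  have h : nQ_2 s (1+s+v) = 27252 + 660392*v + 1830824*v^2 + 3125368*v^3 + 3699372*v^4 + 2518872*v^5 + 1019928*v^6 + 338744*v^7 + 188976*v^8 + 141312*v^9 + 18336*v^10 + 444784*s + 3703664*s*v + 10168024*s*v^2 + 16292392*s*v^3 + 15244976*s*v^4 + 9605088*s*v^5 + 5507960*s*v^6 + 3238296*s*v^7 + 1706112*s*v^8 + 232416*s*v^9 + 1657888*s^2 + 10485200*s^2*v + 26214660*s^2*v^2 + 35312272*s^2*v^3 + 32078608*s^2*v^4 + 25210464*s^2*v^5 + 16940500*s^2*v^6 + 8468992*s^2*v^7 + 1262016*s^2*v^8 + 3442544*s^3 + 18349632*s^3*v + 39655680*s^3*v^2 + 52662112*s^3*v^3 + 55288960*s^3*v^4 + 44221440*s^3*v^5 + 23382016*s^3*v^6 + 3929472*s^3*v^7 + 4727992*s^4 + 21760088*s^4*v + 46266648*s^4*v^2 + 67354360*s^4*v^3 + 67111740*s^4*v^4 + 40180224*s^4*v^5 + 7842240*s^4*v^6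 + 4690576*s^5 + 20955520*s^5*v + 46928184*s^5*v^2 + 62284856*s^5*v^3 + 44963072*s^5*v^4 + 10543680*s^5*v^5 + 3857536*s^6 + 17573360*s^6*v + 35003916*s^6*v^2 + 32947712*s^6*v^3 + 9709056*s^6*v^4 + 2751824*s^7 + 10979760*s^7*v + 15301632*s^7*v^2 + 6062976*s^7*v^3 + 1479220*s^8 + 4097536*s^8*v + 2462112*s^8*v^2 + 482944*s^9 + 588000*s^9*v + 62784*s^10 := by
    unfold nQ_2; ring
  rw [h]; positivity

noncomputable def nQ_3 (s M : ℝ) : ℝ := -1373584*M + 4167648*M^2 - 7763520*M^3 + 9437728*M^4 - 6856072*M^5 + 2855760*M^6 - 186616*M^7 - 247296*M^8 + 71040*M^9 - 1453280*s*M + 3253152*s*M^2 - 5212032*s*M^3 + 4446912*s*M^4 - 1832112*s*M^5 + 427920*s*M^6 - 188160*s*M^7 + 129792*s*M^8 - 384400*s^2*M + 624640*s^2*M^2 - 913808*s^2*M^3 + 347520*s^2*M^4 + 10344*s^2*M^5 - 19456*s^2*M^6 - 16896*s^2*M^7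

theorem nQ_3_nonneg (s v : ℝ) (hs : 0 ≤ s) (hv : 0 ≤ v) : 0 ≤ nQ_3 s (1+s+v) := by
  have h : nQ_3 s (1+s+v) = 105088 + 1630944*v + 3493352*v^2 + 4129096*v^3 + 3102528*v^4 + 1462016*v^5 + 592520*v^6 + 392456*v^7 + 392064*v^8 + 71040*v^9 + 1203136*s + 7319456*s*v + 14466312*s*v^2 + 15905760*s*v^3 + 11515072*s*v^4 + 7607520*s*v^5 + 5492168*s*v^6 + 3986688*s*v^7 + 769152*s*v^8 + 3474048*s^2 + 15875584*s^2*v + 28527232*s^2*v^2 + 31039360*s^2*v^3 + 28665840*s^2*v^4 + 24250224*s^2*v^5 + 16791296*s^2*v^6 + 3578880*s^2*v^7 + 5538368*s^3 + 21747296*s^3*v + 38647808*s^3*v^2 + 50438560*s^3*v^3 + 52604560*s^3*v^4 + 38982912*s^3*v^5 + 9483264*s^3*v^6 + 6023296*s^4 + 22927744*s^4*v + 46508040*s^4*v^2 + 64023400*s^4*v^3 + 55134720*s^4*v^4 + 15864576*s^4*v^5 + 5266240*s^5 + 21881280*s^5*v + 44804136*s^5*v^2 + 48957184*s^5*v^3 + 17445120*s^5*v^4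 + 4160960*s^6 + 16911008*s^6*v + 26765568*s^6*v^2 + 12644352*s^6*v^3 + 2676224*s^7 + 8261376*s^7*v + 5836800*s^7*v^2 + 1104512*s^8 + 1559424*s^8*v + 183936*s^9 := by
    unfold nQ_3; ring
  rw [h]; positivity

noncomputable def nQ_4 (s M : ℝ) : ℝ := -343396 + 1041912*M - 3886600*M^2 + 6594952*M^3 - 5536786*M^4 + 2525732*M^5 + 284874*M^6 - 616320*M^7 + 161760*M^8 - 363320*s + 813288*s*M - 2873408*s*M^2 + 3090528*s*M^3 - 1770076*s*M^4 + 862260*s*M^5 - 390720*s*M^6 + 206400*s*M^7 - 96100*s^2 + 156160*s^2*M - 539532*s^2*M^2 + 218400*s^2*M^3 - 120558*s^2*M^4 + 67840*s^2*M^5 - 28800*s^2*M^6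

theorem nQ_4_nonneg (s v : ℝ) (hs : 0 ≤ s) (hv : 0 ≤ v) : 0 ≤ nQ_4 s (1+s+v) := by
  have h : nQ_4 s (1+s+v) = 226128 + 2224168*v + 3794530*v^2 + 2889968*v^3 + 1116984*v^4 + 350816*v^5 + 499914*v^6 + 677760*v^7 + 161760*v^8 + 1799120*s + 8258592*s*v + 11543824*s*v^2 + 8510360*s*v^3 + 5658504*s*v^4 + 5851824*s*v^5 + 5798400*s*v^6 + 1500480*s*v^7 + 4121472*s^2 + 13834208*s^2*v + 18467896*s^2*v^2 + 18964424*s^2*v^3 + 21547052*s^2*v^4 + 20452480*s^2*v^5 + 5945280*s^2*v^6 + 5180352*s^3 + 15872648*s^3*v + 26450408*s^3*v^2 + 37668248*s^3*v^3 + 39008000*s^3*v^4 + 13220160*s^3*v^5 + 4798128*s^4 + 16887480*s^4*v + 34741962*s^4*v^2 + 43753600*s^4*v^3 + 18115200*s^4*v^4 + 4093808*s^5 + 16407752*s^5*v + 28994560*s^5*v^2 + 15706560*s^5*v^3 + 3138896*s^6 + 10544000*s^6*v + 8431680*s^6*v^2 + 1626880*s^7 + 2566080*s^7*v + 339360*s^8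 := by
    unfold nQ_4; ring
  rw [h]; positivity

noncomputable def nQ_5 (s M : ℝ) : ℝ := -1167432*M + 2541312*M^2 - 2578432*M^3 + 1417744*M^4 + 763272*M^5 - 907776*M^6 + 240000*M^7 - 942240*s*M + 1187280*s*M^2 - 1172016*s*M^3 + 898704*s*M^4 - 376704*s*M^5 + 211584*s*M^6 - 186648*s^2*M + 78912*s^2*M^2 - 181608*s^2*M^3 + 109568*s^2*M^4 - 27648*s^2*M^5

theorem nQ_5_nonneg (s v : ℝ) (hs : 0 ≤ s) (hv : 0 ≤ v) : 0 ≤ nQ_5 s (1+s+v) := by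
  have h : nQ_5 s (1+s+v) = 308688 + 1900576*v + 2368560*v^2 + 969744*v^3 + 17464*v^4 + 356616*v^5 + 772224*v^6 + 240000*v^7 + 1707184*s + 5634192*s*v + 5379408*s*v^2 + 2957296*s*v^3 + 3972024*s*v^4 + 5526144*s*v^5 + 1891584*s*v^6 + 3058208*s^2 + 7575968*s^2*v + 8682120*s^2*v^2 + 12302120*s^2*v^3 + 16018688*s^2*v^4 + 6281856*s^2*v^5 + 3166304*s^3 + 8562208*s^3*v + 16640376*s^3*v^2 + 24257792*s^3*v^3 + 11435520*s^3*v^4 + 2819920*s^4 + 10479408*s^4*v + 20339328*s^4*v^2 + 12355200*s^4*v^3 + 2525744*s^5 + 8982656*s^5*v + 7937280*s^5*v^2 + 1636352*s^6 + 2811264*s^6*v + 423936*s^7 := by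
    unfold nQ_5; ring
  rw [h]; positivity

noncomputable def nQ_6 (s M : ℝ) : ℝ := -194572 + 423552*M - 667048*M^2 + 511848*M^3 + 830404*M^4 - 860928*M^5 + 243264*M^6 - 157040*s + 197880*s*M - 515992*s*M^2 + 521064*s*M^3 - 175680*s*M^4 + 144576*s*M^5 - 31108*s^2 + 13152*s^2*M - 120036*s^2*M^2 + 73216*s^2*M^3 - 15360*s^2*M^4

theorem nQ_6_nonneg (s v : ℝ) (hs : 0 ≤ s) (hv : 0 ≤ v) : 0 ≤ nQ_6 s (1+s+v) := by
  have h : nQ_6 s (1+s+v) = 286520 + 1101560*v + 890600*v^2 + 89464*v^3 + 174724*v^4 + 598656*v^5 + 243264*v^6 + 1116368*s + 2530448*s*v + 1707272*s*v^2 + 1963000*s*v^3 + 3540480*s*v^4 + 1604160*s*v^5 + 1559712*s^2 + 3077440*s^2*v + 4848108*s^2*v^2 + 8187136*s^2*v^3 + 4356480*s^2*v^4 + 1459632*s^3 + 4506112*s^3*v + 9305088*s^3*v^2 + 6249600*s^3*v^3 + 1446280*s^4 + 5217408*s^4*v + 5002560*s^4*v^2 + 1157632*s^5 +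 2121024*s^5*v + 372480*s^6 := by
    unfold nQ_6; ring
  rw [h]; positivity

noncomputable def nQ_7 (s M : ℝ) : ℝ := -101704*M + 118096*M^2 + 534264*M^3 - 534528*M^4 + 172032*M^5 - 137424*s*M + 159120*s*M^2 - 19200*s*M^3 + 66816*s*M^4 - 38472*s^2*M + 23552*s^2*M^2 - 4608*s^2*M^3

theorem nQ_7_nonneg (s v : ℝ) (hs : 0 ≤ s) (hv : 0 ≤ v) : 0 ≤ nQ_7 s (1+s+v) := by
  have h : nQ_7 s (1+s+v) = 188160 + 459328*v + 234040*v^2 + 116472*v^3 + 325632*v^4 + 172032*v^5 + 528640*s + 858560*s*v + 851832*s*v^2 + 1550592*s*v^3 + 926976*s*v^4 + 604992*s^2 + 1349056*s^2*v + 2707712*s^2*v^2 + 1982976*s^2*v^3 + 613696*s^3 + 2066176*s^3*v + 2107392*s^3*v^2 + 583424*s^4 + 1113600*s^4*v + 234240*s^5 := by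
    unfold nQ_7; ring
  rw [h]; positivity

noncomputable def nQ_8 (s M : ℝ) : ℝ := -12713 + 14762*M + 212343*M^2 - 210816*M^3 + 85440*M^4 - 17178*s + 19890*s*M + 15840*s*M^2 + 20832*s*M^3 - 4809*s^2 + 2944*s^2*M - 576*s^2*M^2

theorem nQ_8_nonneg (s v : ℝ) (hs : 0 ≤ s) (hv : 0 ≤ v) : 0 ≤ nQ_8 s (1+s+v) := by
  have h : nQ_8 s (1+s+v) = 89016 + 148760*v + 92535*v^2 + 130944*v^3 + 85440*v^4 + 188144*s + 299136*s*v + 471168*s*v^2 + 362592*s*v^3 + 204160*s^2 + 551296*s^2*v + 574560*s^2*v^2 + 211072*s^3 + 403104*s^3*v + 105696*s^4 := by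
    unfold nQ_8; ring
  rw [h]; positivity

noncomputable def nQ_9 (s M : ℝ) : ℝ := 48520*M - 48000*M^2 + 29760*M^3 + 6080*s*M + 4160*s*M^2

theorem nQ_9_nonneg (s v : ℝ) (hs : 0 ≤ s) (hv : 0 ≤ v) : 0 ≤ nQ_9 s (1+s+v) := by
  have h : nQ_9 s (1+s+v) = 30280 + 41800*v + 41280*v^2 + 29760*v^3 + 52040*s + 96960*s*v + 93440*s*v^2 + 55680*s^2 + 97600*s^2*v + 33920*s^3 := by
    unfold nQ_9; ring
  rw [h]; positivity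

noncomputable def nQ_10 (s M : ℝ) : ℝ := 4852 - 4800*M + 7200*M^2 + 608*s + 416*s*M

theorem nQ_10_nonneg (s v : ℝ) (hs : 0 ≤ s) (hv : 0 ≤ v) : 0 ≤ nQ_10 s (1+s+v) := by
  have h : nQ_10 s (1+s+v) = 7252 + 9600*v + 7200*v^2 + 10624*s + 14816*s*v + 7616*s^2 := by
    unfold nQ_10; ring
  rw [h]; positivity

noncomputable def nQ_11 (s M : ℝ) : ℝ := 1152*M

theorem nQ_11_nonneg (s v : ℝ) (hs : 0 ≤ s) (hv : 0 ≤ v) : 0 ≤ nQ_11 s (1+s+v) := by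
  have h : nQ_11 s (1+s+v) = 1152 + 1152*v + 1152*s := by
    unfold nQ_11; ring
  rw [h]; positivity

noncomputable def nQ_12 (s M : ℝ) : ℝ := 96

theorem nQ_12_nonneg (s v : ℝ) (hs : 0 ≤ s) (hv : 0 ≤ v) : 0 ≤ nQ_12 s (1+s+v) := by
  have h : nQ_12 s (1+s+v) = 96 := by
    unfold nQ_12; ring
  rw [h]; positivity

theorem nQ_split (s M T : ℝ) : nQ s M (M+T) = nQ_0 s M * T^0 + nQ_1 s M * T^1 + nQ_2 s M * T^2 + nQ_3 s M * T^3 + nQ_4 s M * T^4 + nQ_5 s M * T^5 + nQ_6 s M * T^6 + nQ_7 s M * T^7 + nQ_8 s M * T^8 + nQ_9 s M * T^9 + nQ_10 s M * T^10 + nQ_11 s M * T^11 + nQ_12 s M * T^12 := by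
  unfold nQ nQ_0 nQ_1 nQ_2 nQ_3 nQ_4 nQ_5 nQ_6 nQ_7 nQ_8 nQ_9 nQ_10 nQ_11 nQ_12; ring

theorem nQ_nonneg (s M D : ℝ) (hs : 0 ≤ s) (hM : 1 + s ≤ M) (hD : M ≤ D) : 0 ≤ nQ s M D := by
  obtain ⟨T, rfl⟩ : ∃ T, D = M + T := ⟨D - M, by ring⟩
  obtain ⟨v, rfl⟩ : ∃ v, M = 1 + s + v := ⟨M - (1+s), by ring⟩
  have hv : 0 ≤ v := by linarith
  have hT : 0 ≤ T := by linarith
  rw [nQ_split]
  have h0 := nQ_0_nonneg s v hs hv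
  have h1 := nQ_1_nonneg s v hs hv
  have h2 := nQ_2_nonneg s v hs hv
  have h3 := nQ_3_nonneg s v hs hv
  have h4 := nQ_4_nonneg s v hs hv
  have h5 := nQ_5_nonneg s v hs hv
  have h6 := nQ_6_nonneg s v hs hv
  have h7 := nQ_7_nonneg s v hs hv
  have h8 := nQ_8_nonneg s v hs hv
  have h9 := nQ_9_nonneg s v hs hv
  have h10 := nQ_10_nonneg s v hs hv
  have h11 := nQ_11_nonneg s v hs hv
  have h12 := nQ_12_nonneg s v hs hv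
  positivity

theorem nQ_eq (s M D : ℝ) : 4 * nX s M D * nY s M D - nZ s M D ^ 2 = nQ s M D * D^0 := by
  unfold nX nY nZ nQ; ring

noncomputable def A (ε : ℝ) : Poly := [((1/4) - (1)*ε^1, 0, 4, 0),
    (-(11/16) - (7/4)*ε^1, 0, 6, 0),
    (-(51/16), 0, 8, 0),
    ((1/2)*ε^1, 1, 4, 0),
    ((1) - (13/8)*ε^1, 1, 6, 0),
    ((1/2) - (103/8)*ε^1, 1, 8, 0),
    (-(63/4), 1, 10, 0),
    ((39/16) + (18)*ε^1, 2, 8, 0),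
    ((315/8), 2, 10, 0),
    (-(39/8)*ε^1, 3, 8, 0),
    (-(30) + (17)*ε^1, 3, 10, 0),
    ((85/4), 3, 12, 0),
    ((51/8) - (20)*ε^1, 4, 10, 0),
    (-(185/4), 4, 12, 0),
    ((3)*ε^1, 5, 10, 0),
    ((115/4), 5, 12, 0),
    (-(15/4), 6, 12, 0)]

noncomputable def B (ε : ℝ) : Poly := [(-(1/4)*ε^1, 0, 2, 0),
    ((1/4) - (11/16)*ε^1, 0, 4, 0),
    (-(33/16) - (69/16)*ε^1, 0, 6, 0),
    (-(115/16), 0, 8, 0),
    ((11/8) + (7/2)*ε^1, 1, 6, 0),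
    ((51/4), 1, 8, 0),
    (-(9/16)*ε^1, 2, 6, 0),
    (-(111/16) + (51/8)*ε^1, 2, 8, 0),
    ((85/8), 2, 10, 0),
    ((9/8) - (5)*ε^1, 3, 8, 0),
    (-(37/2), 3, 10, 0),
    ((3/8)*ε^1, 4, 8, 0),
    ((69/8), 4, 10, 0),
    (-(3/4), 5, 10, 0)]


theorem pde (ε M D : ℝ) (hD : 0 < D) :
    (4:ℕ) * ev (A ε) M D + D * evD (A ε) M D + M * evM (A ε) M D - M * evD (B ε) M D / D
      - evM (B ε) M D = 0 := by
  simp only [ev, evD, evM, A, B, mu, muM, muD, List.map_cons, List.map_nil, List.sum_cons, List.sum_nil]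
  push_cast
  field_simp
  ring

theorem flux (ε D : ℝ) (hD : 0 < D) :
    ev (A ε) (1 + ε * D ^ 2) D * (ε * D ^ 2 - 1)
      + ev (B ε) (1 + ε * D ^ 2) D * (1 - 2 * ε * (1 + ε * D ^ 2)) = ε ^ (4 - 1) - (D⁻¹) ^ (2 * (4 - 1)) := by
  simp only [ev, A, B, mu, List.map_cons, List.map_nil, List.sum_cons, List.sum_nil]
  norm_num
  field_simp
  ring

theorem X_eq (ε M D : ℝ) (hD : 0 < D) :
    -evD (A ε) M D / D = nX (ε * D ^ 2) M D / (8 * D ^ 14) := by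
  simp only [evD, A, mu, muD, nX, List.map_cons, List.map_nil, List.sum_cons, List.sum_nil]
  push_cast
  field_simp
  ring

theorem Y_eq (ε M D : ℝ) (hD : 0 < D) :
    evM (B ε) M D = nY (ε * D ^ 2) M D / (8 * D ^ 10) := by
  simp only [evM, B, mu, muM, nY, List.map_cons, List.map_nil, List.sum_cons, List.sum_nil]
  push_cast
  field_simp
  ring

theorem Z_eq (ε M D : ℝ) (hD : 0 < D) :
    evM (A ε) M D - evD (B ε) M D / D = nZ (ε * D ^ 2) M D / (8 * D ^ 12) := by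
  simp only [evM, evD, A, B, mu, muM, muD, nZ, List.map_cons, List.map_nil, List.sum_cons, List.sum_nil]
  push_cast
  field_simp
  ring

theorem cert : Cert 4 A B where
  pde := fun ε M D _ hD => pde ε M D hD
  posX := by
    intro ε M D he hM hMD hreg
    have hD : 0 < D := by linarith
    rw [X_eq ε M D hD]
    have := nX_nonneg (ε * D ^ 2) M D (by positivity) hreg hMD
    positivity
  posY := by
    intro ε M D he hM hMD hreg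
    have hD : 0 < D := by linarith
    rw [Y_eq ε M D hD]
    have := nY_nonneg (ε * D ^ 2) M D (by positivity) hreg hMD
    positivity
  posQ := by
    intro ε M D he hM hMD hreg
    have hD : 0 < D := by linarith
    rw [X_eq ε M D hD, Y_eq ε M D hD, Z_eq ε M D hD]
    have h := nQ_nonneg (ε * D ^ 2) M D (by positivity) hreg hMD
    have h2 := nQ_eq (ε * D ^ 2) M D
    have h3 : 4 * (nX (ε * D ^ 2) M D / (8 * D ^ 14)) * (nY (ε * D ^ 2) M D / (8 * D ^ 10)) -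
        (nZ (ε * D ^ 2) M D / (8 * D ^ 12)) ^ 2 =
        (4 * nX (ε * D ^ 2) M D * nY (ε * D ^ 2) M D - nZ (ε * D ^ 2) M D ^ 2) / (64 * D ^ 24) := by
      field_simp
      ring
    rw [h2] at h3
    have h4 : 0 ≤ nQ (ε * D ^ 2) M D * D^0 / (64 * D ^ 24) := by positivity
    linarith
  flux := fun ε D _ hD => flux ε D hD

end Pool.Agent.H800.FS.K4
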