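import Mathlib

namespace Pool.Agent.H800.FS

open Filter Topology
open scoped ContDiff

/-- the monomial `M^i D^(-j) (D+M)^(-l)` -/
noncomputable def mu (i j l : ℕ) (M D : ℝ) : ℝ := M ^ i * (D⁻¹) ^ j * ((D + M)⁻¹) ^ l

/-- partial derivatives of the monomial -/
noncomputable def muM (i j l : ℕ) (M D : ℝ) : ℝ := i * mu (i - 1) j l M D - l * mu i j (l + 1) M D

noncomputable def muD (i j l : ℕ) (M D : ℝ) : ℝ := - (j * mu i (j + 1) l M D) - l * mu i j (l + 1) M D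

/-- a list of monomials with coefficients -/
abbrev Poly := List (ℝ × ℕ × ℕ × ℕ)

noncomputable def ev (L : Poly) (M D : ℝ) : ℝ := (L.map fun t => t.1 * mu t.2.1 t.2.2.1 t.2.2.2 M D).sum

noncomputable def evM (L : Poly) (M D : ℝ) : ℝ := (L.map fun t => t.1 * muM t.2.1 t.2.2.1 t.2.2.2 M D).sum

noncomputable def evD (L : Poly) (M D : ℝ) : ℝ := (L.map fun t => t.1 * muD t.2.1 t.2.2.1 t.2.2.2 M D).sum

theorem hasDerivAt_mu (i j l : ℕ) (m d : ℝ → ℝ) (m' d' : ℝ) (hm : HasDerivAt m m' 0)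
    (hd : HasDerivAt d d' 0) (h0 : 0 < d 0) (h1 : 0 < m 0) :
    HasDerivAt (fun τ => mu i j l (m τ) (d τ))
      (muM i j l (m 0) (d 0) * m' + muD i j l (m 0) (d 0) * d') 0 := by
  have hD : d 0 ≠ 0 := h0.ne'
  have hS : d 0 + m 0 ≠ 0 := by positivity
  have hw : HasDerivAt (fun τ => (d τ)⁻¹) (-d' / (d 0) ^ 2) 0 := hd.fun_inv hD
  have hv : HasDerivAt (fun τ => (d τ + m τ)⁻¹) (-(d' + m') / (d 0 + m 0) ^ 2) 0 :=
    (hd.add hm).fun_inv hS
  have key := ((hm.fun_pow i).fun_mul (hw.fun_pow j)).fun_mul (hv.fun_pow l)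
  refine (key.congr_deriv ?_)
  unfold muM muD mu
  rcases i with _ | i <;> rcases j with _ | j <;> rcases l with _ | l <;>
    simp <;> field_simp <;> ring

theorem hasDerivAt_ev (L : Poly) (m d : ℝ → ℝ) (m' d' : ℝ) (hm : HasDerivAt m m' 0)
    (hd : HasDerivAt d d' 0) (h0 : 0 < d 0) (h1 : 0 < m 0) :
    HasDerivAt (fun τ => ev L (m τ) (d τ))
      (evM L (m 0) (d 0) * m' + evD L (m 0) (d 0) * d') 0 := by
  induction L with
  | nil => simpa [ev, evM, evD] using hasDerivAt_const (0:ℝ) (0:ℝ)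
  | cons t L ih =>
    have h := ((hasDerivAt_mu t.2.1 t.2.2.1 t.2.2.2 m d m' d' hm hd h0 h1).const_mul t.1).add ih
    refine (h.congr_deriv ?_).congr_of_eventuallyEq (Eventually.of_forall fun τ => ?_)
    · simp only [evM, evD, List.map_cons, List.sum_cons]; ring
    · simp only [ev, List.map_cons, List.sum_cons, Pi.add_apply]

theorem contDiffAt_mu {V : Type*} [NormedAddCommGroup V] [NormedSpace ℝ V] (i j l : ℕ)
    (m d : V → ℝ) (x : V) (hm : ContDiffAt ℝ ∞ m x) (hd : ContDiffAt ℝ ∞ d x)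
    (h0 : d x ≠ 0) (h1 : d x + m x ≠ 0) : ContDiffAt ℝ ∞ (fun x => mu i j l (m x) (d x)) x := by
  unfold mu
  exact ((hm.pow i).mul ((hd.inv h0).pow j)).mul (((hd.add hm).inv h1).pow l)

theorem contDiffAt_ev {V : Type*} [NormedAddCommGroup V] [NormedSpace ℝ V] (L : Poly)
    (m d : V → ℝ) (x : V) (hm : ContDiffAt ℝ ∞ m x) (hd : ContDiffAt ℝ ∞ d x)
    (h0 : d x ≠ 0) (h1 : d x + m x ≠ 0) : ContDiffAt ℝ ∞ (fun x => ev L (m x) (d x)) x := by
  induction L with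
  | nil => simpa [ev] using contDiffAt_const
  | cons t L ih =>
    simp only [ev, List.map_cons, List.sum_cons]
    exact (contDiffAt_const.mul (contDiffAt_mu _ _ _ m d x hm hd h0 h1)).add ih

end Pool.Agent.H800.FS
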